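import Pool.Agent.Q253.FC.Main

/-!
# The exact sets of Fourier coefficients of `×p`, `×q` invariant measures for twelve pairs

`coefSet p q` is the set of the first Fourier coefficients `∫ e(x) dμ(x)` of all probability
measures `μ` on the circle `R/Z` which are invariant under `x ↦ p x` and `x ↦ q x` (no ergodicity,
no entropy, atoms allowed). It contains all the other coefficients of these measures as well. By the
conjecture of Furstenberg only Lebesgue measure and measures with atoms contribute.

For twelve multiplicatively independent pairs this set is determined exactly. It is a convex polygon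
`hexagon a b m n h` with the vertices `a`, `b`, `m ± h i`, `n ± h i` (some of them may coincide), and
the vertices are the coefficients of uniform measures on periodic orbits of small denominators:

* `(3, 5)`: `± 1` (fixed points) and `± 1 / 10 ± √11 / 10 i` (denominators `11`, `22`);
* `(3, 7)`: `± 1` and `± √5 / 4 i` (the orbit of `1 / 20`);
* `(3, 11)` and `(3, 17)`: `± 1` and `± √2 / 2 i` (the orbit of `1 / 8`);
* `(5, 7)`: `± 1` and `± √6 / 4 i` (the orbit of `1 / 24`);
* `(2, 11)`: `1`, `- 1 / 2` (the orbit of `1 / 3`) and `- 1 / 6 ± √7 / 6 i` (the orbit of `1 / 7`);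
* `(4, 7)`, `(5, 9)`, `(5, 13)`, `(5, 17)`, `(9, 13)`, `(7, 13)`: the roots of unity of order
  `gcd (p - 1, q - 1)`, that is the common fixed points.

So for every phase `θ` the greatest value of `∫ cos (2 π x - θ) dμ(x)` over all invariant `μ` is
known and attained on one of these orbits.

Outline: for every side of the polygon there is a nonnegative trigonometric polynomial of degree at
most `84` which vanishes on the orbits which belong to the two ends of the side, and for which the
coefficients in each class of frequencies modulo `n ∼ p n ∼ q n` have the sum zero, except for the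
classes of `0` and `± 1`. The polynomials (found by linear programming) have coefficients in
`ℤ[√-d]`; they are of the form `|G|² (|S|² + E)` with `E` positive for trivial reasons, which is
checked by the kernel. -/

set_option autoImplicit false

namespace Pool.Agent.Results.MP_96e181_an.FirstCoefficientPolygons

open MeasureTheory Pool.Agent.Q253.FC

/-- For every pair, all Fourier coefficients of the `×p`, `×q` invariant probability measures lie in
`coefSet p q`; and `coefSet p q`, the set of all their first coefficients, is the given polygon for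
the twelve pairs. -/
theorem result :
    (∀ (p q : ℕ) (μ : Measure UnitAddCircle), IsProbabilityMeasure μ →
      MeasurePreserving (fun x : UnitAddCircle => p • x) μ μ →
      MeasurePreserving (fun x : UnitAddCircle => q • x) μ μ →
      ∀ m : ℤ, ∫ x, (fourier m x : ℂ) ∂μ ∈ coefSet p q) ∧
    coefSet 2 11 = hexagon (-1 / 2) 1 (-1 / 6) (-1 / 6) (Real.sqrt 7 / 6) ∧
    coefSet 3 5 = hexagon (-1) 1 (-1 / 10) (1 / 10) (Real.sqrt 11 / 10) ∧
    coefSet 3 7 = hexagon (-1) 1 0 0 (Real.sqrt 5 / 4) ∧
    coefSet 3 11 = hexagon (-1) 1 0 0 (Real.sqrt 2 / 2) ∧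
    coefSet 3 17 = hexagon (-1) 1 0 0 (Real.sqrt 2 / 2) ∧
    coefSet 4 7 = hexagon (-1 / 2) 1 (-1 / 2) (-1 / 2) (Real.sqrt 3 / 2) ∧
    coefSet 5 7 = hexagon (-1) 1 0 0 (Real.sqrt 6 / 4) ∧
    coefSet 5 9 = hexagon (-1) 1 0 0 1 ∧
    coefSet 5 13 = hexagon (-1) 1 0 0 1 ∧
    coefSet 5 17 = hexagon (-1) 1 0 0 1 ∧
    coefSet 7 13 = hexagon (-1) 1 (-1 / 2) (1 / 2) (Real.sqrt 3 / 2) ∧
    coefSet 9 13 = hexagon (-1) 1 0 0 1 :=
  ⟨fun _ _ _ _ h2 h3 m => coef_mem h2 h3 m, set211, set35, set37, set311, set317, set47, set57,
    set59, set513, set517, set713, set913⟩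

end Pool.Agent.Results.MP_96e181_an.FirstCoefficientPolygons
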