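import Pool.Agent.H185.XQ.Dil

/-!
# Furstenberg's conjecture is equivalent to the isolation of Lebesgue measure

Let `S` be a set of natural numbers which contains a number `p ≥ 2` (for Furstenberg's conjecture
`S = {p, q}`).  There is an atomless `S`-invariant measure other than Lebesgue measure if and only if
Lebesgue measure is a weak limit of atomless `S`-ergodic measures different from it.  No assumption
on the entropy is made.
-/

set_option autoImplicit false

open MeasureTheory Set Filter Topology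

namespace Pool.Agent.Results.MP_96e181_an.IsolationOfLebesgue

/-- The atomless Borel probability measures on the circle which are invariant under `x ↦ s x` for
all `s` in `S`. -/
def AtomlessInvariant (S : Set ℕ) : Set (Measure UnitAddCircle) :=
  {μ | IsProbabilityMeasure μ ∧ (∀ x, μ {x} = 0) ∧
    ∀ s ∈ S, MeasurePreserving (fun x : UnitAddCircle => s • x) μ μ}

/-- The measures among them which are ergodic for the joint action. -/
def AtomlessErgodic (S : Set ℕ) : Set (Measure UnitAddCircle) :=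
  {μ | μ ∈ AtomlessInvariant S ∧ ∀ E : Set UnitAddCircle, MeasurableSet E →
    (∀ s ∈ S, (fun x : UnitAddCircle => s • x) ⁻¹' E = E) → μ E = 0 ∨ μ E = 1}

/-- Lebesgue measure is a weak limit of a sequence of atomless ergodic measures different from it. -/
def LebesgueIsLimit (S : Set ℕ) : Prop :=
  ∃ ν : ℕ → Measure UnitAddCircle, (∀ j, ν j ∈ AtomlessErgodic S ∧ ν j ≠ volume) ∧
    ∀ f : C(UnitAddCircle, ℝ), Tendsto (fun j => ∫ x, f x ∂(ν j)) atTop (𝓝 (∫ x, f x))

/-- **Furstenberg's conjecture as an isolation statement.**  (1) There is an atomless `S`-invariant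
measure other than Lebesgue measure if and only if Lebesgue measure is a limit of atomless
`S`-ergodic measures different from it.  (2) For every atomless `S`-invariant `μ ≠ volume` and every
`n ≥ 1` the image of `μ` under `x ↦ n x` is again an atomless `S`-invariant measure other than
`volume`, ergodic if `μ` is.  (3) These images converge to `volume` as `n` tends to infinity outside a
set of density zero (their Fourier coefficients tend to zero in the quadratic mean). -/
theorem result (S : Set ℕ) (p : ℕ) (hpS : p ∈ S) (hp : 2 ≤ p) :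
    ((∃ μ ∈ AtomlessInvariant S, μ ≠ volume) ↔ LebesgueIsLimit S) ∧
    (∀ μ ∈ AtomlessInvariant S, μ ≠ volume → ∀ n : ℕ, 0 < n →
      μ.map (fun x => n • x) ∈ AtomlessInvariant S ∧ μ.map (fun x => n • x) ≠ volume ∧
        (μ ∈ AtomlessErgodic S → μ.map (fun x => n • x) ∈ AtomlessErgodic S)) ∧
    ∀ μ ∈ AtomlessInvariant S, ∀ m : ℤ, m ≠ 0 → Tendsto (fun N : ℕ => (N : ℝ)⁻¹ *
      ∑ n ∈ Finset.range N, ‖∫ x, (fourier m x : ℂ) ∂(μ.map (fun x => n • x))‖ ^ 2) atTop (𝓝 0) := by
  refine ⟨⟨?_, ?_⟩, ?_, ?_⟩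
  · rintro ⟨μ, ⟨hμ, hat, hinv⟩, hne⟩
    obtain ⟨ν, hν, h⟩ := Pool.Agent.H185.XQ.exists_seq
      (Pool.Agent.H185.XQ.not_isolated ⟨p, hpS, hp⟩ hat hinv hne)
    exact ⟨ν, fun j => ⟨⟨⟨(hν j).1.1, (hν j).1.2.1, (hν j).1.2.2.1⟩, (hν j).1.2.2.2⟩, (hν j).2⟩, h⟩
  · rintro ⟨ν, hν, -⟩
    exact ⟨ν 0, (hν 0).1.1, (hν 0).2⟩
  · rintro μ ⟨hμ, hat, hinv⟩ hne n hn
    refine ⟨⟨?_, ?_, ?_⟩, ?_, ?_⟩
    · exact (inferInstance : IsProbabilityMeasure (Pool.Agent.H185.XQ.dil n μ))
    · exact Pool.Agent.H185.XQ.dil_atomless hn hat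
    · exact fun s hs => Pool.Agent.H185.XQ.dil_inv n (hinv s hs)
    · exact fun h => hne (Pool.Agent.H185.XQ.eq_volume_of_dil hp (hinv p hpS) hn h)
    · rintro ⟨-, herg⟩
      refine ⟨⟨?_, ?_, ?_⟩, ?_⟩
      · exact (inferInstance : IsProbabilityMeasure (Pool.Agent.H185.XQ.dil n μ))
      · exact Pool.Agent.H185.XQ.dil_atomless hn hat
      · exact fun s hs => Pool.Agent.H185.XQ.dil_inv n (hinv s hs)
      · exact Pool.Agent.H185.XQ.dil_erg n herg
  · rintro μ ⟨hμ, hat, hinv⟩ m hm
    refine (Pool.Agent.H185.XQ.wiener_sq hat hm).congr fun N => ?_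
    congr 1
    refine Finset.sum_congr rfl fun n _ => ?_
    rw [← Pool.Agent.H185.XQ.cf_dil]
    rfl

end Pool.Agent.Results.MP_96e181_an.IsolationOfLebesgue
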