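import Mathlib
import Pool.Agent.Q227.Fur.Circ

set_option autoImplicit false

/-!
# Atomless measures invariant under `x ↦ q x` and minimal systems

Let `μ` be an atomless probability measure on the circle invariant under `x ↦ q x`.  For `μ`-almost
every `x`, simultaneously for all `p ≥ 2` multiplicatively independent of `q` and all minimal
systems `(Y, S)`, the orbit of `(x, y)` under `(x, y) ↦ (p x, S y)` is dense in the product.  If `μ`
is also invariant under `x ↦ p x`, every joining of `(μ, ×p)` with an invariant measure of a minimal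
system has full support in the product, and a measurable factor map onto a minimal system takes
values in every nonempty open set on every nonempty open subset of the circle.
-/

open MeasureTheory Set

namespace Pool.Agent.Results.MP_96e181_an.MinimalJoinings

universe v

/-- **Disjointness from minimal systems.** Let `q ≥ 2` and let `μ` be an atomless probability measure
on the circle invariant under `x ↦ q x`.
(1) For `μ`-almost every `x`: for all `p ≥ 2` with `log p / log q` irrational, all compact Hausdorff
spaces `Y`, all continuous `S : Y → Y` all of whose orbits are dense, and all `y`, the set of the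
`(p ^ n x, S ^ n y)` is dense in the product.
(2) For all such `p`, `Y`, `S`: every probability measure on the product with first marginal `μ`
which is invariant under `(x, y) ↦ (p x, S y)` gives positive mass to `U ×ˢ W` for all nonempty open
`U`, `W`.
(3) If `μ` is invariant under `x ↦ p x` and `φ (p x) = S (φ x)` for `μ`-almost all `x`, then
`U ∩ φ ⁻¹ W` has positive mass for all nonempty open `U`, `W`. -/
theorem result (q : ℕ) (hq : 2 ≤ q) (μ : Measure UnitAddCircle) [IsProbabilityMeasure μ]
    (hat : ∀ x, μ {x} = 0) (hμq : MeasurePreserving (fun x : UnitAddCircle => q • x) μ μ) :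
    (∀ᵐ x ∂μ, ∀ p : ℕ, 2 ≤ p → Irrational (Real.log p / Real.log q) →
      ∀ (Y : Type v) [TopologicalSpace Y] [CompactSpace Y] [T2Space Y] (S : Y → Y), Continuous S →
        (∀ y, Dense (range fun n : ℕ => S^[n] y)) →
        ∀ y, Dense (range fun n : ℕ => (p ^ n • x, S^[n] y))) ∧
    (∀ p : ℕ, 2 ≤ p → Irrational (Real.log p / Real.log q) →
      ∀ (Y : Type v) [TopologicalSpace Y] [CompactSpace Y] [T2Space Y] (S : Y → Y), Continuous S →
        (∀ y, Dense (range fun n : ℕ => S^[n] y)) →
        (∀ [MeasurableSpace Y] (ρ : Measure (UnitAddCircle × Y)), IsProbabilityMeasure ρ →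
          ρ.map Prod.fst = μ →
          MeasurePreserving (fun z : UnitAddCircle × Y => (p • z.1, S z.2)) ρ ρ →
          ∀ U : Set UnitAddCircle, ∀ W : Set Y, IsOpen U → U.Nonempty → IsOpen W → W.Nonempty →
            0 < ρ (U ×ˢ W)) ∧
        (MeasurePreserving (fun x : UnitAddCircle => p • x) μ μ →
          ∀ φ : UnitAddCircle → Y, (∀ᵐ x ∂μ, φ (p • x) = S (φ x)) →
          ∀ U : Set UnitAddCircle, ∀ W : Set Y, IsOpen U → U.Nonempty → IsOpen W → W.Nonempty →
            0 < μ (U ∩ φ ⁻¹' W))) := by
  have h1 : ∀ᵐ x ∂μ, ∀ p : ℕ, 2 ≤ p → Irrational (Real.log p / Real.log q) →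
      ∀ (Y : Type v) [TopologicalSpace Y] [CompactSpace Y] [T2Space Y] (S : Y → Y), Continuous S →
        (∀ y, Dense (range fun n : ℕ => S^[n] y)) →
        ∀ y, Dense (range fun n : ℕ => (p ^ n • x, S^[n] y)) := by
    have h2 : ∀ᵐ x ∂μ, ∀ p : ℕ, ∀ r : ℕ, 2 ≤ p → Irrational (Real.log p / Real.log q) → 1 ≤ r →
        Dense (range fun n : ℕ => (p ^ r) ^ n • x) := by
      rw [ae_all_iff]; intro p
      rw [ae_all_iff]; intro r
      by_cases hp : 2 ≤ p
      · by_cases hirr : Irrational (Real.log p / Real.log q)
        · by_cases hr : 1 ≤ r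
          · have h3 : Pool.Agent.H705R2.MulIndep (p ^ r) q := by
              intro a b hab
              have h4 := Pool.Agent.H705R2.mulIndep_of_irrational hp hq hirr
              rw [← pow_mul] at hab
              obtain ⟨h5, h6⟩ := h4 _ _ hab
              rcases Nat.mul_eq_zero.1 h5 with h7 | h7
              · omega
              · exact ⟨h7, h6⟩
            have h4 : 2 ≤ p ^ r := hp.trans (Nat.le_self_pow (by omega) p)
            filter_upwards [Pool.Agent.W765.Sta.dense_orbit h4 hq h3 hat hμq] with x hx _ _ _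
            exact hx
          · exact Filter.Eventually.of_forall fun x _ _ h => absurd h hr
        · exact Filter.Eventually.of_forall fun x _ h => absurd h hirr
      · exact Filter.Eventually.of_forall fun x h => absurd h hp
    filter_upwards [h2] with x hx p hp hirr Y _ _ _ S hS hm y
    exact Pool.Agent.Q227.Fur.dense_prod hp hS hm (fun r hr => hx p r hp hirr hr) y
  refine ⟨h1, fun p hp hirr Y _ _ _ S hS hm => ⟨?_, ?_⟩⟩
  · intro _ ρ hρ hρμ hρi U W hU hUn hW hWn
    rw [pos_iff_ne_zero]
    intro h0
    have hit : ∀ n : ℕ, (fun z : UnitAddCircle × Y => (p • z.1, S z.2))^[n] =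
        fun z => (p ^ n • z.1, S^[n] z.2) := by
      intro n
      induction n with
      | zero => ext z <;> simp
      | succ n ih =>
        funext z
        rw [Function.iterate_succ_apply', ih]
        simp only [pow_succ', mul_smul, Function.iterate_succ_apply']
    have h2 : ∀ᵐ z ∂ρ, ∀ n : ℕ, (p ^ n • z.1, S^[n] z.2) ∉ U ×ˢ W := by
      rw [ae_all_iff]
      intro n
      have h3 : ∀ᵐ z ∂ρ, z ∉ U ×ˢ W := measure_eq_zero_iff_ae_notMem.1 h0
      have h4 := (hρi.iterate n).quasiMeasurePreserving.ae h3
      rw [hit n] at h4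
      exact h4
    have h3 : ∀ᵐ z ∂ρ, ∀ y, Dense (range fun n : ℕ => (p ^ n • z.1, S^[n] y)) := by
      have h4 : ∀ᵐ x ∂(ρ.map Prod.fst), ∀ y, Dense (range fun n : ℕ => (p ^ n • x, S^[n] y)) := by
        rw [hρμ]
        filter_upwards [h1] with x hx
        exact hx p hp hirr Y S hS hm
      exact ae_of_ae_map measurable_fst.aemeasurable h4
    obtain ⟨z, hz1, hz2⟩ := (h2.and h3).exists
    obtain ⟨_, ⟨n, rfl⟩, h5⟩ := (hz2 z.2).exists_mem_open (hU.prod hW)
      (hUn.prod hWn)
    exact hz1 n h5
  · intro hμp φ hφ U W hU hUn hW hWn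
    rw [pos_iff_ne_zero]
    intro h0
    have hit : ∀ n : ℕ, (fun x : UnitAddCircle => p • x)^[n] = fun x => p ^ n • x := by
      intro n
      induction n with
      | zero => ext x; simp
      | succ n ih =>
        ext x
        rw [Function.iterate_succ_apply', ih]
        simp only [pow_succ', mul_smul]
    have h2 : ∀ᵐ x ∂μ, ∀ n : ℕ, p ^ n • x ∉ U ∩ φ ⁻¹' W := by
      rw [ae_all_iff]
      intro n
      have h3 : ∀ᵐ x ∂μ, x ∉ U ∩ φ ⁻¹' W := measure_eq_zero_iff_ae_notMem.1 h0
      have h4 := (hμp.iterate n).quasiMeasurePreserving.ae h3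
      rw [hit n] at h4
      exact h4
    have h3 : ∀ᵐ x ∂μ, ∀ n : ℕ, φ (p • (p ^ n • x)) = S (φ (p ^ n • x)) := by
      rw [ae_all_iff]
      intro n
      have h4 := (hμp.iterate n).quasiMeasurePreserving.ae hφ
      rw [hit n] at h4
      exact h4
    obtain ⟨x, hx1, hx2, hx3⟩ := (h1.and (h2.and h3)).exists
    have h4 : ∀ n : ℕ, φ (p ^ n • x) = S^[n] (φ x) := by
      intro n
      induction n with
      | zero => simp
      | succ n ih => rw [Function.iterate_succ_apply', ← ih, pow_succ', mul_smul, hx3 n]
    obtain ⟨_, ⟨n, rfl⟩, h5⟩ := (hx1 p hp hirr Y S hS hm (φ x)).exists_mem_open (hU.prod hW)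
      (hUn.prod hWn)
    refine hx2 n ⟨h5.1, ?_⟩
    show φ (p ^ n • x) ∈ W
    rw [h4 n]
    exact h5.2

end Pool.Agent.Results.MP_96e181_an.MinimalJoinings
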