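import Pool.Agent.H185.XQ.Aff

set_option autoImplicit false

open MeasureTheory Filter Topology Pool.Agent.H185.XQ

namespace Pool.Agent.Results.MP_96e181_an.OverlappingTranslates

theorem result :
    ∀ p q : ℕ, 2 ≤ p → 2 ≤ q → Irrational (Real.log (p : ℝ) / Real.log (q : ℝ)) →
    ∀ V : Set (ProbabilityMeasure UnitAddCircle), IsClosed V →
      (∀ ν ∈ V, MeasurePreserving (fun x : UnitAddCircle => p • x) (ν : Measure UnitAddCircle) ν ∧
        MeasurePreserving (fun x : UnitAddCircle => q • x) (ν : Measure UnitAddCircle) ν ∧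
        (ν : Measure UnitAddCircle) ⟂ₘ volume) →
    ∀ c : ℝ, 0 < c →
      {t : UnitAddCircle | ∃ μ : Measure UnitAddCircle, IsProbabilityMeasure μ ∧
        MeasurePreserving (fun x : UnitAddCircle => p • x) μ μ ∧
        MeasurePreserving (fun x : UnitAddCircle => q • x) μ μ ∧
        ∃ a : ℤ, ∃ ν ∈ V, ∃ σ : Measure UnitAddCircle, IsProbabilityMeasure σ ∧
          ENNReal.ofReal c • σ ≤ μ.map (fun x => a • x + t) ∧
          ENNReal.ofReal c • σ ≤ (ν : Measure UnitAddCircle)}.Finite ∧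
      (∀ a : ℤ, a ≠ 0 →
        {t : UnitAddCircle | ∃ μ : Measure UnitAddCircle, IsProbabilityMeasure μ ∧
          MeasurePreserving (fun x : UnitAddCircle => p • x) μ μ ∧
          MeasurePreserving (fun x : UnitAddCircle => q • x) μ μ ∧
          ∃ ν ∈ V, ∃ σ : Measure UnitAddCircle, IsProbabilityMeasure σ ∧
            ENNReal.ofReal c • σ ≤ (ν : Measure UnitAddCircle).map (fun x => a • x + t) ∧
            ENNReal.ofReal c • σ ≤ μ}.Finite) ∧
      (∀ μ : Measure UnitAddCircle, IsProbabilityMeasure μ → (∀ x, μ {x} = 0) →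
        Tendsto (fun N : ℕ => (({n : ℕ | n < N ∧ ∃ t : UnitAddCircle, ∃ ν ∈ V,
          ∃ σ : Measure UnitAddCircle, IsProbabilityMeasure σ ∧
            ENNReal.ofReal c • σ ≤ μ.map (fun x => n • x + t) ∧
            ENNReal.ofReal c • σ ≤ (ν : Measure UnitAddCircle)}.ncard : ℕ) : ℝ) / N) atTop
          (𝓝 0)) := by
  intro p q hp hq hirr V hVc hV c hc
  refine ⟨finite_A hp hq hirr hVc hV hc, fun a ha => finite_A' hp hq hirr hVc hV hc ha, ?_⟩
  intro μ hμ hat
  exact density_zero hVc (fun ν hν => (hV ν hν).2.2) hc hat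

end Pool.Agent.Results.MP_96e181_an.OverlappingTranslates
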